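import Mathlib
import Pool.Agent.Work.MP_a53b92_co.Explicit

/-!
# MP_a53b92: exceptional triangle-free quasi-symmetric designs, effective finiteness

The question in full, for designs with an indexed family of blocks on an arbitrary finite set of
points: the number of points of an exceptional triangle-free quasi-symmetric 2-design is at most
10 ^ 125000, and up to isomorphism there are only finitely many such designs.
-/

set_option autoImplicit false

namespace Pool.Agent.Results.MP_a53b92_co.EffectiveFiniteness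

universe u w

/-- A finite incidence structure: a finite set of points and a finite family of blocks. -/
structure Inc where
  /-- the points -/
  Pt : Type u
  /-- the indices of the blocks -/
  Ix : Type w
  /-- finitely many points -/
  finPt : Finite Pt
  /-- finitely many blocks -/
  finIx : Finite Ix
  /-- the blocks -/
  blk : Ix → Set Pt

/-- Isomorphism of incidence structures. -/
def Iso (D : Inc.{u, w}) (E : Inc.{0, 0}) : Prop :=
  ∃ (f : D.Pt ≃ E.Pt) (g : D.Ix ≃ E.Ix), ∀ i, f '' D.blk i = E.blk (g i)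

/-- `D` is a 2-(v, k, lam) design. -/
def IsDesign (D : Inc.{u, w}) (v k lam : ℕ) : Prop :=
  Nat.card D.Pt = v ∧ 0 < k ∧ k < v ∧ (∀ i, (D.blk i).ncard = k) ∧
    ∀ p q : D.Pt, p ≠ q → {i | p ∈ D.blk i ∧ q ∈ D.blk i}.ncard = lam

/-- The intersection numbers of `D`. -/
def interNumbers (D : Inc.{u, w}) : Set ℕ :=
  {n | ∃ i j, i ≠ j ∧ (D.blk i ∩ D.blk j).ncard = n}

/-- No three blocks are pairwise disjoint. -/
def TriangleFree (D : Inc.{u, w}) : Prop :=
  ¬ ∃ i j l, i ≠ j ∧ i ≠ l ∧ j ≠ l ∧ Disjoint (D.blk i) (D.blk j) ∧ Disjoint (D.blk i) (D.blk l) ∧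
    Disjoint (D.blk j) (D.blk l)

/-- `D` is an exceptional triangle-free quasi-symmetric 2-(v, k, lam) design with intersection
numbers 0 and y. -/
def Exceptional (D : Inc.{u, w}) (v k lam y : ℕ) : Prop :=
  IsDesign D v k lam ∧ 2 ≤ y ∧ interNumbers D = {0, y} ∧ TriangleFree D ∧
    2 * y < k ∧ k < y * (y + 1)

open Classical in
/-- the bound for the number of points -/
theorem bound (D : Inc.{u, w}) (v k lam y : ℕ) (h : Exceptional D v k lam y) :
    v ≤ 10 ^ 125000 ∧ Function.Injective D.blk := by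
  obtain ⟨⟨hv, hk0, hkv, hblk, hlam⟩, hy, hnum, htf, hk1, hk2⟩ := h
  haveI := D.finPt
  haveI := D.finIx
  haveI := Fintype.ofFinite D.Pt
  haveI := Fintype.ofFinite D.Ix
  have hcardv : Fintype.card D.Pt = v := by rw [← hv, Nat.card_eq_fintype_card]
  have hinter : ∀ i j, i ≠ j → (D.blk i ∩ D.blk j).ncard = 0 ∨ (D.blk i ∩ D.blk j).ncard = y := by
    intro i j hij
    have : (D.blk i ∩ D.blk j).ncard ∈ interNumbers D := ⟨i, j, hij, rfl⟩
    rw [hnum] at this
    simpa using this
  have hinj : Function.Injective D.blk := by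
    intro i j hij
    by_contra hne
    rcases hinter i j hne with h | h
    · rw [← hij, Set.inter_self, hblk] at h; omega
    · rw [← hij, Set.inter_self, hblk] at h; omega
  refine ⟨?_, hinj⟩
  obtain ⟨e⟩ : Nonempty (D.Pt ≃ Fin v) := ⟨Fintype.equivFinOfCardEq hcardv⟩
  set F : D.Ix → Finset (Fin v) := fun i => (D.blk i).toFinset.map e.toEmbedding with hF
  have hmem : ∀ i (p : Fin v), p ∈ F i ↔ e.symm p ∈ D.blk i := by
    intro i p
    simp only [hF, Finset.mem_map_equiv, Set.mem_toFinset]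
  have hFcard : ∀ i, (F i).card = k := by
    intro i
    rw [hF, Finset.card_map, ← Set.ncard_eq_toFinset_card', hblk]
  have hFinter : ∀ i j, (F i ∩ F j).card = (D.blk i ∩ D.blk j).ncard := by
    intro i j
    rw [hF, ← Finset.map_inter, Finset.card_map, Set.ncard_eq_toFinset_card', Set.toFinset_inter]
  have hFinj : Function.Injective F := by
    intro i j hij
    apply hinj
    ext x
    have := hmem i (e x)
    rw [hij, hmem j (e x)] at this
    simpa using this.symm
  set B : Finset (Finset (Fin v)) := Finset.univ.image F with hB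
  have hBmem : ∀ b, b ∈ B ↔ ∃ i, F i = b := by intro b; simp [hB]
  refine Pool.Agent.MPa53b92.explicit_finiteness v k lam y B hy hk1 hk2 ?_ ?_ ?_ ?_ ?_ ?_
  · intro b hb
    obtain ⟨i, rfl⟩ := (hBmem b).1 hb
    exact hFcard i
  · intro p q hpq
    have h1 := hlam (e.symm p) (e.symm q) (fun h => hpq (e.symm.injective h))
    rw [← h1, Set.ncard_eq_toFinset_card']
    rw [← Finset.card_image_of_injective _ hFinj]
    congr 1
    ext b
    simp only [Finset.mem_filter, Finset.mem_image, Set.mem_toFinset, Set.mem_setOf_eq]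
    constructor
    · rintro ⟨hb, hp, hq⟩
      obtain ⟨i, rfl⟩ := (hBmem b).1 hb
      exact ⟨i, ⟨(hmem i p).1 hp, (hmem i q).1 hq⟩, rfl⟩
    · rintro ⟨i, ⟨hp, hq⟩, rfl⟩
      exact ⟨(hBmem _).2 ⟨i, rfl⟩, (hmem i p).2 hp, (hmem i q).2 hq⟩
  · intro b hb c hc hbc
    obtain ⟨i, rfl⟩ := (hBmem b).1 hb
    obtain ⟨j, rfl⟩ := (hBmem c).1 hc
    rw [hFinter]
    exact hinter i j (fun h => hbc (by rw [h]))
  · have : (0:ℕ) ∈ interNumbers D := by rw [hnum]; simp
    obtain ⟨i, j, hij, h⟩ := this
    exact ⟨F i, (hBmem _).2 ⟨i, rfl⟩, F j, (hBmem _).2 ⟨j, rfl⟩, fun h' => hij (hFinj h'),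
      by rw [hFinter, h]⟩
  · have : y ∈ interNumbers D := by rw [hnum]; simp
    obtain ⟨i, j, hij, h⟩ := this
    exact ⟨F i, (hBmem _).2 ⟨i, rfl⟩, F j, (hBmem _).2 ⟨j, rfl⟩, fun h' => hij (hFinj h'),
      by rw [hFinter, h]⟩
  · rintro ⟨a, ha, b, hb, c, hc, h1, h2, h3⟩
    obtain ⟨i, rfl⟩ := (hBmem a).1 ha
    obtain ⟨j, rfl⟩ := (hBmem b).1 hb
    obtain ⟨l, rfl⟩ := (hBmem c).1 hc
    have conv : ∀ i j, Disjoint (F i) (F j) → i ≠ j ∧ Disjoint (D.blk i) (D.blk j) := by
      intro i j hd
      constructor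
      · rintro rfl
        rw [disjoint_self] at hd
        have := hFcard i
        rw [hd] at this
        simp at this
        omega
      · rw [Set.disjoint_left]
        intro x hx hx'
        rw [Finset.disjoint_left] at hd
        exact hd ((hmem i (e x)).2 (by simpa using hx)) ((hmem j (e x)).2 (by simpa using hx'))
    obtain ⟨a1, a2⟩ := conv i j h1
    obtain ⟨b1, b2⟩ := conv i l h2
    obtain ⟨c1, c2⟩ := conv j l h3
    exact htf ⟨i, j, l, a1, b1, c1, a2, b2, c2⟩

/-- Every exceptional triangle-free quasi-symmetric 2-design has at most 10 ^ 125000 points, and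
up to isomorphism there are only finitely many of them. -/
theorem result :
    (∀ (D : Inc.{u, w}) (v k lam y : ℕ), Exceptional D v k lam y → v ≤ 10 ^ 125000) ∧
      ∃ L : Set Inc.{0, 0}, L.Finite ∧
        ∀ (D : Inc.{u, w}) (v k lam y : ℕ), Exceptional D v k lam y → ∃ E ∈ L, Iso D E := by
  refine ⟨fun D v k lam y h => (bound D v k lam y h).1, ?_⟩
  obtain ⟨N, hN⟩ : ∃ N : ℕ, N = 10 ^ 125000 := ⟨_, rfl⟩
  let mk : (v b : ℕ) → (Fin b → Set (Fin v)) → Inc.{0, 0} := fun v b f =>
    { Pt := Fin v, Ix := Fin b, finPt := inferInstance, finIx := inferInstance, blk := f }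
  refine ⟨⋃ v ∈ Set.Iic N, ⋃ b ∈ Set.Iic (2 ^ N), Set.range (mk v b), ?_, ?_⟩
  · refine (Set.finite_Iic N).biUnion fun v _ => (Set.finite_Iic (2 ^ N)).biUnion fun b _ => ?_
    exact Set.finite_range _
  · intro D v k lam y h
    obtain ⟨hvN, hinj⟩ := bound D v k lam y h
    rw [← hN] at hvN
    haveI := D.finPt
    haveI := D.finIx
    haveI := Fintype.ofFinite D.Pt
    haveI := Fintype.ofFinite D.Ix
    have hcardv : Fintype.card D.Pt = v := by rw [← h.1.1, Nat.card_eq_fintype_card]
    have hb : Fintype.card D.Ix ≤ 2 ^ N := by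
      have h1 : Nat.card D.Ix ≤ Nat.card (Set D.Pt) := Nat.card_le_card_of_injective _ hinj
      rw [Nat.card_eq_fintype_card, Nat.card_eq_fintype_card (α := Set D.Pt), Fintype.card_set,
        hcardv] at h1
      exact h1.trans (Nat.pow_le_pow_right (by norm_num) hvN)
    let e := Fintype.equivFinOfCardEq hcardv
    let g := Fintype.equivFin D.Ix
    refine ⟨mk v (Fintype.card D.Ix) (fun i => e '' D.blk (g.symm i)), ?_, e, g, ?_⟩
    · simp only [Set.mem_iUnion, Set.mem_Iic, Set.mem_range]
      exact ⟨v, hvN, Fintype.card D.Ix, hb, _, rfl⟩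
    · intro i
      show e '' D.blk i = e '' D.blk (g.symm (g i))
      rw [Equiv.symm_apply_apply]

end Pool.Agent.Results.MP_a53b92_co.EffectiveFiniteness
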